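import Mathlib

/-!
# Thue chromatic number of lexicographic products: the lower bound fails

`C_7[E_k]` (each vertex of the 7-cycle replaced by `k` independent vertices) has a nonrepetitive
colouring with `2k+3` colours, while `π(E_k) + (π(C_7) - 1) k = 1 + 3k`.
-/

namespace Pool.Agent.Results.MP_35dbbb_co.LexThue

open SimpleGraph

/-- A colouring `c` of `G` is nonrepetitive: there is no `t ≥ 1` and no path
`v 0, v 1, …, v (2t-1)` of `G` (pairwise distinct vertices, consecutive ones adjacent) with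
`c (v i) = c (v (i+t))` for all `i < t`. -/
def Nonrepetitive {V C : Type} (G : SimpleGraph V) (c : V → C) : Prop :=
  ∀ (t : ℕ) (v : ℕ → V), 1 ≤ t → Set.InjOn v (Set.Iio (2 * t)) →
    (∀ i, i + 1 < 2 * t → G.Adj (v i) (v (i + 1))) → ¬ ∀ i < t, c (v i) = c (v (i + t))

/-- The Thue chromatic number: the least number of colours in a nonrepetitive colouring. -/
noncomputable def thue {V : Type} (G : SimpleGraph V) : ℕ :=
  sInf {n : ℕ | ∃ c : V → Fin n, Nonrepetitive G c}

/-- The lexicographic product `G[H]`. -/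
def lexProduct {V W : Type} (G : SimpleGraph V) (H : SimpleGraph W) : SimpleGraph (V × W) where
  Adj p q := G.Adj p.1 q.1 ∨ (p.1 = q.1 ∧ H.Adj p.2 q.2)
  symm := ⟨fun _ _ h => h.elim (fun h => Or.inl h.symm) (fun h => Or.inr ⟨h.1.symm, h.2.symm⟩)⟩
  loopless := ⟨fun _ h => h.elim (fun h => G.loopless.irrefl _ h) (fun h => H.loopless.irrefl _ h.2)⟩

theorem Nonrepetitive.comp {V C D : Type} {G : SimpleGraph V} {c : V → C}
    (h : Nonrepetitive G c) (f : C → D) (hf : Function.Injective f) :
    Nonrepetitive G (f ∘ c) := by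
  intro t v ht hv hadj hrep
  exact h t v ht hv hadj (fun i hi => hf (hrep i hi))

theorem thue_le {V C : Type} [Fintype C] {G : SimpleGraph V} {c : V → C}
    (h : Nonrepetitive G c) : thue G ≤ Fintype.card C := by
  apply Nat.sInf_le
  exact ⟨_, h.comp (Fintype.equivFin C) (Fintype.equivFin C).injective⟩

theorem exists_thue {V : Type} [Fintype V] (G : SimpleGraph V) :
    ∃ c : V → Fin (thue G), Nonrepetitive G c := by
  have hne : {n : ℕ | ∃ c : V → Fin n, Nonrepetitive G c}.Nonempty := by
    refine ⟨Fintype.card V, Fintype.equivFin V, ?_⟩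
    intro t v ht hv _ hrep
    have h0 := hrep 0 (by omega)
    have h1 : v 0 = v (0 + t) := (Fintype.equivFin V).injective h0
    have h2 := hv (show 0 ∈ Set.Iio (2 * t) by simp; omega)
      (show 0 + t ∈ Set.Iio (2 * t) by simp; omega) h1
    omega
  exact Nat.sInf_mem hne

/-! ### The cycle `C_7` needs four colours -/

theorem check7 : ∀ a b c d e f g : Fin 3,
    ((a == b || b == c || c == d || d == e || e == f || f == g || g == a) ||
    ((a == c && b == d) || (b == d && c == e) || (c == e && d == f) || (d == f && e == g) ||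
      (e == g && f == a) || (f == a && g == b) || (g == b && a == c)) ||
    ((a == d && b == e && c == f) || (b == e && c == f && d == g) || (c == f && d == g && e == a) ||
      (d == g && e == a && f == b) || (e == a && f == b && g == c) ||
      (f == b && g == c && a == d) || (g == c && a == d && b == e))) = true := by
  decide +kernel

/-- The path in `C_7` starting at `s` and going up. -/
def up (s : Fin 7) (i : ℕ) : Fin 7 := ⟨(s.val + i) % 7, Nat.mod_lt _ (by norm_num)⟩

theorem up_inj (s : Fin 7) {m : ℕ} (hm : m ≤ 7) : Set.InjOn (up s) (Set.Iio m) := by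
  intro i hi j hj h
  simp only [Set.mem_Iio] at hi hj
  simp only [up, Fin.mk.injEq] at h
  omega

theorem up_adj (s : Fin 7) (i : ℕ) : (cycleGraph 7).Adj (up s i) (up s (i + 1)) := by
  have h7 : (s.val + (i + 1)) % 7 = ((s.val + i) % 7 + 1) % 7 := by omega
  have h1 : ∀ a : Fin 7, (cycleGraph 7).Adj a ⟨(a.val + 1) % 7, Nat.mod_lt _ (by norm_num)⟩ := by
    decide
  have h2 := h1 (up s i)
  have h3 : (⟨((up s i).val + 1) % 7, Nat.mod_lt _ (by norm_num)⟩ : Fin 7) = up s (i + 1) := by
    apply Fin.ext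
    simp only [up]
    omega
  rw [h3] at h2
  exact h2

theorem four_le_thue_C7 : 4 ≤ thue (cycleGraph 7) := by
  by_contra hlt
  obtain ⟨c, hc⟩ := exists_thue (cycleGraph 7)
  have hle : thue (cycleGraph 7) ≤ 3 := by omega
  have hc' := hc.comp (Fin.castLE hle) (Fin.castLE_injective hle)
  set d := Fin.castLE hle ∘ c with hd
  have key : ∀ (s : Fin 7) (t : ℕ), 1 ≤ t → t ≤ 3 →
      ¬ ∀ i < t, d (up s i) = d (up s (i + t)) := fun s t h1 h3 =>
    hc' t (up s) h1 (up_inj s (by omega)) (fun i _ => up_adj s i)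
  have e1 : ∀ s : Fin 7, d (up s 0) ≠ d (up s 1) := by
    intro s h
    refine key s 1 (by norm_num) (by norm_num) ?_
    intro i hi
    interval_cases i
    exact h
  have e2 : ∀ s : Fin 7, ¬ (d (up s 0) = d (up s 2) ∧ d (up s 1) = d (up s 3)) := by
    rintro s ⟨h, h'⟩
    refine key s 2 (by norm_num) (by norm_num) ?_
    intro i hi
    interval_cases i
    · exact h
    · exact h'
  have e3 : ∀ s : Fin 7, ¬ (d (up s 0) = d (up s 3) ∧ d (up s 1) = d (up s 4) ∧
      d (up s 2) = d (up s 5)) := by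
    rintro s ⟨h, h', h''⟩
    refine key s 3 (by norm_num) (by norm_num) ?_
    intro i hi
    interval_cases i
    · exact h
    · exact h'
    · exact h''
  have u : ∀ s i : ℕ, ∀ hs : s < 7, up ⟨s, hs⟩ i = ⟨(s + i) % 7, Nat.mod_lt _ (by norm_num)⟩ :=
    fun s i hs => rfl
  have a0 := e1 0
  have a1 := e1 1
  have a2 := e1 2
  have a3 := e1 3
  have a4 := e1 4
  have a5 := e1 5
  have a6 := e1 6
  have b0 := e2 0
  have b1 := e2 1
  have b2 := e2 2
  have b3 := e2 3
  have b4 := e2 4
  have b5 := e2 5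
  have b6 := e2 6
  have c0 := e3 0
  have c1 := e3 1
  have c2 := e3 2
  have c3 := e3 3
  have c4 := e3 4
  have c5 := e3 5
  have c6 := e3 6
  have hch := check7 (d 0) (d 1) (d 2) (d 3) (d 4) (d 5) (d 6)
  simp only [Bool.or_eq_true, Bool.and_eq_true, beq_iff_eq] at hch
  rcases hch with (h | h) | h
  · rcases h with ((((((h | h) | h) | h) | h) | h) | h)
    · exact a0 h
    · exact a1 h
    · exact a2 h
    · exact a3 h
    · exact a4 h
    · exact a5 h
    · exact a6 h
  · rcases h with ((((((h | h) | h) | h) | h) | h) | h)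
    · exact b0 h
    · exact b1 h
    · exact b2 h
    · exact b3 h
    · exact b4 h
    · exact b5 h
    · exact b6 h
  · rcases h with ((((((h | h) | h) | h) | h) | h) | h)
    · exact c0 ⟨h.1.1, h.1.2, h.2⟩
    · exact c1 ⟨h.1.1, h.1.2, h.2⟩
    · exact c2 ⟨h.1.1, h.1.2, h.2⟩
    · exact c3 ⟨h.1.1, h.1.2, h.2⟩
    · exact c4 ⟨h.1.1, h.1.2, h.2⟩
    · exact c5 ⟨h.1.1, h.1.2, h.2⟩
    · exact c6 ⟨h.1.1, h.1.2, h.2⟩

/-! ### The colouring of `C_7[E_k]` with `2k+3` colours -/

/-- The colour of the vertex `(i, j)`: the fibres `0,…,6` are coloured `x A y B z A B` where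
`x, y, z` are single colours and `A, B` are sets of `k` colours. -/
def col (k : ℕ) (p : Fin 7 × Fin k) : Fin 3 ⊕ (Bool × Fin k) :=
  match p.1 with
  | 0 => Sum.inl 0
  | 1 => Sum.inr (false, p.2)
  | 2 => Sum.inl 1
  | 3 => Sum.inr (true, p.2)
  | 4 => Sum.inl 2
  | 5 => Sum.inr (false, p.2)
  | 6 => Sum.inr (true, p.2)

/-- The pairs of fibres that can hold two distinct vertices of one colour. -/
def S (a b : Fin 7) : Bool :=
  (a.val, b.val) ∈ [(0, 0), (2, 2), (4, 4), (1, 5), (5, 1), (3, 6), (6, 3)]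

theorem S_of_col {k : ℕ} : ∀ p q : Fin 7 × Fin k, p ≠ q → col k p = col k q →
    S p.1 q.1 = true := by
  rintro ⟨a, j⟩ ⟨b, l⟩ hne h
  fin_cases a <;> fin_cases b <;> simp [col] at h <;>
    first | rfl | (exfalso; apply hne; rw [h])

theorem S_step : ∀ a b a' b' : Fin 7, S a b = true → S a' b' = true →
    (cycleGraph 7).Adj a a' → (cycleGraph 7).Adj b b' → False := by
  decide +kernel

theorem S_not_adj : ∀ a b : Fin 7, S a b = true → ¬ (cycleGraph 7).Adj a b := by
  decide

theorem col_nonrepetitive (k : ℕ) :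
    Nonrepetitive (lexProduct (cycleGraph 7) (⊥ : SimpleGraph (Fin k))) (col k) := by
  intro t v ht hv hadj hrep
  have hadj' : ∀ i, i + 1 < 2 * t → (cycleGraph 7).Adj (v i).1 (v (i + 1)).1 := by
    intro i hi
    rcases hadj i hi with h | h
    · exact h
    · exact absurd h.2 (by simp)
  have hS : ∀ i < t, S (v i).1 (v (i + t)).1 = true := by
    intro i hi
    apply S_of_col _ _ _ (hrep i hi)
    intro h
    have := hv (show i ∈ Set.Iio (2 * t) by simp; omega)
      (show i + t ∈ Set.Iio (2 * t) by simp; omega) h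
    omega
  rcases Nat.lt_or_ge 1 t with h1 | h1
  · have s0 := hS 0 (by omega)
    have s1 := hS 1 (by omega)
    have d1 := hadj' 0 (by omega)
    have d2 := hadj' (0 + t) (by omega)
    have e : 0 + t + 1 = 1 + t := by omega
    rw [e] at d2
    exact S_step _ _ _ _ s0 s1 d1 d2
  · obtain rfl : t = 1 := by omega
    exact S_not_adj _ _ (hS 0 (by norm_num)) (hadj' 0 (by norm_num))

/-- **Disproof of the conjectured lower bound.** For every `k ≥ 3`, with `G = C_7` and `H = E_k`
(the edgeless graph on `k` vertices), `π(G[H]) < π(H) + (π(G) - 1) |V(H)|`. -/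
theorem result : ∀ k : ℕ, 3 ≤ k →
    thue (lexProduct (cycleGraph 7) (⊥ : SimpleGraph (Fin k))) <
      thue (⊥ : SimpleGraph (Fin k)) + (thue (cycleGraph 7) - 1) * Fintype.card (Fin k) := by
  intro k hk
  have h1 := thue_le (col_nonrepetitive k)
  have hcard : Fintype.card (Fin 3 ⊕ (Bool × Fin k)) = 3 + 2 * k := by simp
  rw [hcard] at h1
  have h2 := four_le_thue_C7
  have h3 : 1 ≤ thue (⊥ : SimpleGraph (Fin k)) := by
    obtain ⟨c, hc⟩ := exists_thue (⊥ : SimpleGraph (Fin k))
    have := c ⟨0, by omega⟩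
    exact this.pos
  have h4 : 3 * k ≤ (thue (cycleGraph 7) - 1) * Fintype.card (Fin k) := by
    rw [Fintype.card_fin]
    exact Nat.mul_le_mul_right k (by omega)
  omega

end Pool.Agent.Results.MP_35dbbb_co.LexThue
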